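import Pool.Agent.H933.EP.Stm
import Pool.Agent.H337.LL.Domar
import Pool.Agent.H253.LL.Mean

/-!
# Domar's theorem in the plane for weights `a + b`, `a` in `L^q`, `b` with thin level sets

Chain of discs as in Pool/Agent/H337/LL/Domar.lean. The radius at level `k` is
`R k = A + B + r ((k - 1) / 2) + 2 √I exp (- exp k / 2)`, `4 A B = 4 (α k + α (k + 1))`, where `α k` is the
area of the part of the layer `F k` on which `a` is at least `k / 4`.
-/

set_option autoImplicit false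

open MeasureTheory Metric
open scoped Real ENNReal

namespace Pool.Agent.H177.EP

open Pool.Agent.H933.LL Pool.Agent.H933.EP Pool.Agent.H337.LL

/-- the pointwise alternative -/
lemma alt {G M a b : ℝ} (hG : 0 ≤ G) (hM : 1 ≤ M) (hab : Real.posLog (Real.posLog M) ≤ a + b)
    {m : ℕ} (hm : Real.exp m ≤ Real.posLog G) :
    ((m : ℝ) - 1) / 2 ≤ a ∨ ((m : ℝ) - 1) / 2 ≤ b ∨ Real.exp (Real.exp m) ≤ (G / M) ^ 2 := by
  by_contra hcon
  push Not at hcon
  obtain ⟨h1, h2, h3⟩ := hcon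
  have hM0 : 0 < M := by linarith
  have hE := Real.exp_pos (m : ℝ)
  have he1 := Real.exp_one_gt_d9
  -- `posLog M < exp m / 2`
  have h4 : Real.posLog M < Real.exp m / 2 := by
    have h5 : Real.log (Real.posLog M) ≤ Real.posLog (Real.posLog M) := le_max_right _ _
    have h6 : Real.log (Real.posLog M) < (m : ℝ) - 1 := by linarith
    rcases (Real.posLog_nonneg (x := M)).eq_or_lt with h7 | h7
    · rw [← h7]
      positivity
    · have h8 : Real.posLog M < Real.exp ((m : ℝ) - 1) := (Real.log_lt_iff_lt_exp h7).1 h6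
      have h9 : Real.exp (m : ℝ) = Real.exp ((m : ℝ) - 1) * Real.exp 1 := by
        rw [← Real.exp_add]
        congr 1
        ring
      have h10 := Real.exp_pos ((m : ℝ) - 1)
      nlinarith
  have h5 : Real.log M < Real.exp m / 2 := lt_of_le_of_lt (le_max_right _ _) h4
  have h6 : M < Real.exp (Real.exp m / 2) := (Real.log_lt_iff_lt_exp hM0).1 h5
  -- `G / M < exp (exp m / 2)`
  have h7 : G / M < Real.exp (Real.exp m / 2) := by
    by_contra h8
    push Not at h8
    have h9 := pow_le_pow_left₀ (Real.exp_pos _).le h8 2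
    have h10 : Real.exp (Real.exp m / 2) ^ 2 = Real.exp (Real.exp m) := by
      rw [← Real.exp_nat_mul]
      congr 1
      push_cast
      ring
    rw [h10] at h9
    linarith
  have h8 : G < Real.exp (Real.exp m) := by
    rw [div_lt_iff₀ hM0] at h7
    have h9 : Real.exp (Real.exp m) = Real.exp (Real.exp m / 2) * Real.exp (Real.exp m / 2) := by
      rw [← Real.exp_add]
      congr 1
      ring
    rw [h9]
    exact h7.trans (mul_lt_mul_of_pos_left h6 (Real.exp_pos _))
  -- the contradiction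
  have h9 : Real.exp m ≤ Real.log G := by
    rcases le_max_iff.1 hm with h | h
    · linarith
    · exact h
  rcases hG.eq_or_lt with h10 | h10
  · rw [← h10, Real.log_zero] at h9
    linarith
  · have h11 := Real.log_lt_log h10 h8
    rw [Real.log_exp] at h11
    linarith

/-- one step of the chain, local form -/
lemma step2 (h : P_mean) {g : ℂ → ℂ} {U : Set ℂ} (hU : IsOpen U) (hg : DifferentiableOn ℂ g U)
    {z₀ : ℂ} {ρ : ℝ} (hB : closedBall z₀ ρ ⊆ U) {c : ℂ} {R : ℝ} (hR : 0 < R)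
    (hc : closedBall c R ⊆ ball z₀ ρ) {m : ℕ} (hm : Real.exp (m + 1) ≤ Real.posLog ‖g c‖)
    (hRR : volume ((Fk (fun z => Real.posLog ‖g z‖) (ball z₀ ρ) m ∪
      Fk (fun z => Real.posLog ‖g z‖) (ball z₀ ρ) (m + 1)) ∩ ball c R) ≤ ENNReal.ofReal (5 / 8 * R ^ 2)) :
    ∃ z ∈ ball c R, Real.exp (m + 2) ≤ Real.posLog ‖g z‖ := by
  by_contra hcon
  push Not at hcon
  set u : ℂ → ℝ := fun z => Real.posLog ‖g z‖ with hu
  have hucont : ContinuousOn u U := Real.continuous_posLog.comp_continuousOn hg.continuousOn.norm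
  have hsub1 : ball c R ⊆ ball z₀ ρ := ball_subset_closedBall.trans hc
  have hsub2 : closedBall c R ⊆ U := hc.trans (ball_subset_closedBall.trans hB)
  have h1 : π * R ^ 2 * u c ≤ ∫ z in ball c R, u z := h g U c R hU hR hsub2 hg
  set F0 := Fk u (ball z₀ ρ) m with hF0
  set F1 := Fk u (ball z₀ ρ) (m + 1) with hF1
  have huB : ContinuousOn u (ball z₀ ρ) := hucont.mono (ball_subset_closedBall.trans hB)
  have hFm : MeasurableSet (F0 ∪ F1) :=
    (Fk_meas isOpen_ball huB m).union (Fk_meas isOpen_ball huB (m + 1))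
  have hfm : IsFiniteMeasure (volume.restrict (ball c R)) :=
    ⟨by rw [Measure.restrict_apply_univ]; exact measure_ball_lt_top⟩
  have hint1 : IntegrableOn u (ball c R) :=
    ((hucont.mono hsub2).integrableOn_compact (isCompact_closedBall _ _)).mono_set
      ball_subset_closedBall
  have hi1 : Integrable (fun _ : ℂ => Real.exp (m : ℝ)) (volume.restrict (ball c R)) :=
    integrable_const _
  have hi2 : Integrable ((F0 ∪ F1).indicator fun _ : ℂ => Real.exp ((m : ℝ) + 2))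
      (volume.restrict (ball c R)) := (integrable_const _).indicator hFm
  have h2 : ∫ z in ball c R, u z ≤ ∫ z in ball c R,
      (Real.exp (m : ℝ) + (F0 ∪ F1).indicator (fun _ => Real.exp ((m : ℝ) + 2)) z) := by
    apply setIntegral_mono_on hint1 (hi1.add hi2) measurableSet_ball
    intro z hz
    show u z ≤ Real.exp (m : ℝ) + (F0 ∪ F1).indicator (fun _ => Real.exp ((m : ℝ) + 2)) z
    have hz1 : u z < Real.exp ((m : ℝ) + 2) := hcon z hz
    have hzD := hsub1 hz
    have hpos := Real.exp_pos (m : ℝ)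
    by_cases hzm : u z < Real.exp (m : ℝ)
    · have h3 : 0 ≤ (F0 ∪ F1).indicator (fun _ => Real.exp ((m : ℝ) + 2)) z :=
        Set.indicator_nonneg (fun _ _ => (Real.exp_pos _).le) z
      linarith
    · push Not at hzm
      have hzF : z ∈ F0 ∪ F1 := by
        by_cases hz2 : u z < Real.exp ((m : ℝ) + 1)
        · exact Or.inl (mem_Fk.2 ⟨hzD, hzm, hz2⟩)
        · push Not at hz2
          refine Or.inr (mem_Fk.2 ⟨hzD, ?_, ?_⟩)
          · rw [Nat.cast_add, Nat.cast_one]
            exact hz2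
          · rw [Nat.cast_add, Nat.cast_one, add_assoc, one_add_one_eq_two]
            exact hz1
      rw [Set.indicator_of_mem hzF]
      linarith
  have h3 : ∫ z in ball c R,
      (Real.exp (m : ℝ) + (F0 ∪ F1).indicator (fun _ => Real.exp ((m : ℝ) + 2)) z) =
      Real.exp m * (R ^ 2 * π) +
        (volume.restrict (ball c R)).real (F0 ∪ F1) * Real.exp ((m : ℝ) + 2) := by
    rw [integral_add hi1 hi2, setIntegral_const, real_vol_ball c hR.le, smul_eq_mul,
      integral_indicator_const _ hFm, smul_eq_mul, mul_comm (R ^ 2 * π)]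
  have h4 : (volume.restrict (ball c R)).real (F0 ∪ F1) ≤ 5 / 8 * R ^ 2 := by
    rw [Measure.real, Measure.restrict_apply hFm]
    exact ENNReal.toReal_le_of_le_ofReal (by positivity) hRR
  have h5 : Real.exp ((m : ℝ) + 1) = Real.exp m * Real.exp 1 := Real.exp_add _ _
  have h6 : Real.exp ((m : ℝ) + 2) = Real.exp m * (Real.exp 1 * Real.exp 1) := by
    rw [← Real.exp_add 1 1, ← Real.exp_add]
    norm_num
  have hE := Real.exp_pos (m : ℝ)
  have he1 := Real.exp_one_gt_d9
  have he2 := Real.exp_one_lt_d9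
  have hpi := Real.pi_gt_three
  rw [h5] at hm
  rw [h3, h6] at h2
  have h7 : π * R ^ 2 * (Real.exp m * Real.exp 1) ≤ π * R ^ 2 * u c :=
    mul_le_mul_of_nonneg_left hm (by positivity)
  have h8 : (volume.restrict (ball c R)).real (F0 ∪ F1) *
      (Real.exp m * (Real.exp 1 * Real.exp 1)) ≤
      5 / 8 * R ^ 2 * (Real.exp m * (Real.exp 1 * Real.exp 1)) :=
    mul_le_mul_of_nonneg_right h4 (by positivity)
  have hP : 0 < Real.exp (m : ℝ) * R ^ 2 := by positivity
  have h9 : Real.exp (m : ℝ) * R ^ 2 *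
      (π * (Real.exp 1 - 1) - 5 / 8 * (Real.exp 1 * Real.exp 1)) ≤ 0 := by
    linarith
  have h10 : 0 < π * (Real.exp 1 - 1) - 5 / 8 * (Real.exp 1 * Real.exp 1) := by
    nlinarith
  have h11 := mul_pos hP h10
  linarith

/-- the part of the layer on which `a` is large -/
def Ak (u : ℂ → ℝ) (D : Set ℂ) (f : ℂ → ℝ≥0∞) (t : ℝ≥0∞) (k : ℕ) : Set ℂ :=
  {x | t ≤ f x} ∩ Fk u D k

lemma Ak_fin (u : ℂ → ℝ) (z₀ : ℂ) (ρ : ℝ) (f : ℂ → ℝ≥0∞) (t : ℝ≥0∞) (k : ℕ) :
    volume (Ak u (ball z₀ ρ) f t k) ≠ ⊤ :=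
  ((measure_mono Set.inter_subset_right).trans_lt (lt_top_iff_ne_top.2 (Fk_fin u z₀ ρ k))).ne

/-- the sum over the layers -/
lemma layers_sum2 {u : ℂ → ℝ} {z₀ : ℂ} {ρ : ℝ} {U : Set ℂ} {f : ℂ → ℝ≥0∞} (t : ℕ → ℝ≥0∞)
    (hB : ball z₀ ρ ⊆ U) (hf : AEMeasurable f (volume.restrict U))
    (hu : ContinuousOn u (ball z₀ ρ)) (s : Finset ℕ) :
    ∑ k ∈ s, t k * volume (Ak u (ball z₀ ρ) f (t k) k) ≤ ∫⁻ z in U, f z := by
  have hmeas : ∀ k, MeasurableSet (Fk u (ball z₀ ρ) k) := Fk_meas isOpen_ball hu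
  have hsub : ∀ k, Fk u (ball z₀ ρ) k ⊆ U := fun k => (Fk_sub u _ k).trans hB
  have h1 : ∀ k ∈ s, t k * volume (Ak u (ball z₀ ρ) f (t k) k) ≤ ∫⁻ z in Fk u (ball z₀ ρ) k, f z := by
    intro k _
    have h2 := mul_meas_ge_le_lintegral₀ (hf.mono_measure (Measure.restrict_mono (hsub k) le_rfl)) (t k)
    rw [Measure.restrict_apply' (hmeas k)] at h2
    exact h2
  refine (Finset.sum_le_sum h1).trans ?_
  rw [← lintegral_biUnion_finset (fun k _ l _ hkl => ?_) (fun k _ => hmeas k)]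
  · exact lintegral_mono_set (Set.iUnion₂_subset fun k _ => hsub k)
  · rcases lt_or_gt_of_ne hkl with h | h
    · exact Fk_disj u _ h
    · exact (Fk_disj u _ h).symm

/-- the summability of the radii -/
lemma summable_half {r : ℕ → ℝ} (hr : Summable r) : Summable fun k : ℕ => r ((k - 1) / 2) := by
  rw [← summable_nat_add_iff 1]
  have h1 : HasSum (fun k : ℕ => r ((2 * k + 1 - 1) / 2)) (∑' k, r k) := by
    have : (fun k : ℕ => r ((2 * k + 1 - 1) / 2)) = r := by
      funext k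
      congr 1
      omega
    rw [this]
    exact hr.hasSum
  have h2 : HasSum (fun k : ℕ => r ((2 * k + 1 + 1 - 1) / 2)) (∑' k, r k) := by
    have : (fun k : ℕ => r ((2 * k + 1 + 1 - 1) / 2)) = r := by
      funext k
      congr 1
      omega
    rw [this]
    exact hr.hasSum
  exact (HasSum.even_add_odd (f := fun k : ℕ => r ((k + 1 - 1) / 2)) h1 h2).summable

lemma summable_ee : Summable fun k : ℕ => Real.exp (-(Real.exp k / 2)) := by
  refine Summable.of_nonneg_of_le (fun k => (Real.exp_pos _).le) (fun k => ?_)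
    (Real.summable_exp_nat_mul_iff.2 (by norm_num : -(1 / 2 : ℝ) < 0))
  apply Real.exp_le_exp.2
  have := Real.add_one_le_exp (k : ℝ)
  linarith

/-- the area of the bad set -/
lemma area {g : ℂ → ℂ} {M a b : ℂ → ℝ} {U W : Set ℂ} {q I ρ : ℝ} {z₀ : ℂ} (hq : 0 < q) (hI : 0 ≤ I)
    (hU : IsOpen U) (hMm : AEMeasurable M (volume.restrict U))
    (hae : ∀ᵐ z ∂(volume.restrict U), 1 ≤ M z ∧ 0 ≤ a z ∧ Real.posLog (Real.posLog (M z)) ≤ a z + b z)
    (hB1 : closedBall z₀ ρ ⊆ W) (hB2 : closedBall z₀ ρ ⊆ U)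
    (hg : DifferentiableOn ℂ g W)
    (hint : ∫⁻ z in ball z₀ ρ, ENNReal.ofReal ((‖g z‖ / M z) ^ 2) ≤ ENNReal.ofReal I)
    {c : ℂ} {R : ℝ} (hR : 0 < R) {m : ℕ} (hm : 2 ≤ m)
    (hthin : volume {w : ℂ | w ∈ ball c R ∧ w ∈ U ∧ (((m - 1) / 2 : ℕ) : ℝ) ≤ b w} ≤
      ENNReal.ofReal (R ^ 2 / 8))
    (hexp : 4 * (I * Real.exp (-Real.exp m)) ≤ R ^ 2) :
    volume ((Fk (fun z => Real.posLog ‖g z‖) (ball z₀ ρ) m ∪
      Fk (fun z => Real.posLog ‖g z‖) (ball z₀ ρ) (m + 1)) ∩ ball c R) ≤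
      volume (Ak (fun z => Real.posLog ‖g z‖) (ball z₀ ρ) (fun z => ENNReal.ofReal (a z ^ q))
        (ENNReal.ofReal (((m : ℝ) / 4) ^ q)) m) +
      volume (Ak (fun z => Real.posLog ‖g z‖) (ball z₀ ρ) (fun z => ENNReal.ofReal (a z ^ q))
        (ENNReal.ofReal ((((m + 1 : ℕ) : ℝ) / 4) ^ q)) (m + 1)) +
      ENNReal.ofReal (3 / 8 * R ^ 2) := by
  obtain ⟨N, hN, hNdef⟩ : ∃ N : Set ℂ, volume N = 0 ∧ ∀ z ∈ U, z ∉ N →
      1 ≤ M z ∧ 0 ≤ a z ∧ Real.posLog (Real.posLog (M z)) ≤ a z + b z := by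
    refine ⟨{z | ¬ (z ∈ U → 1 ≤ M z ∧ 0 ≤ a z ∧ Real.posLog (Real.posLog (M z)) ≤ a z + b z)}, ?_, ?_⟩
    · exact ae_iff.1 ((ae_restrict_iff' hU.measurableSet).1 hae)
    · intro z hz hzN
      simp only [Set.mem_ofPred_eq, not_not] at hzN
      exact hzN hz
  set u : ℂ → ℝ := fun z => Real.posLog ‖g z‖ with hu
  set H : Set ℂ := {z | ENNReal.ofReal (Real.exp (Real.exp m)) ≤ ENNReal.ofReal ((‖g z‖ / M z) ^ 2)} ∩
    ball z₀ ρ with hH
  have hHvol : volume H ≤ ENNReal.ofReal (R ^ 2 / 4) := by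
    have hgm : AEMeasurable (fun z => ENNReal.ofReal ((‖g z‖ / M z) ^ 2)) (volume.restrict (ball z₀ ρ)) := by
      have h1 : AEMeasurable (fun z => ‖g z‖) (volume.restrict (ball z₀ ρ)) :=
        ((hg.continuousOn.mono (ball_subset_closedBall.trans hB1)).norm).aemeasurable measurableSet_ball
      have h2 : AEMeasurable M (volume.restrict (ball z₀ ρ)) :=
        hMm.mono_measure (Measure.restrict_mono (ball_subset_closedBall.trans hB2) le_rfl)
      exact ((h1.div h2).pow_const 2).ennreal_ofReal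
    have h1 := mul_meas_ge_le_lintegral₀ hgm (ENNReal.ofReal (Real.exp (Real.exp m)))
    rw [Measure.restrict_apply' measurableSet_ball] at h1
    have h2 := h1.trans hint
    have h3 : volume H ≤ ENNReal.ofReal I / ENNReal.ofReal (Real.exp (Real.exp m)) := by
      rw [ENNReal.le_div_iff_mul_le (Or.inl (by positivity)) (Or.inl ENNReal.ofReal_ne_top), mul_comm]
      exact h2
    refine h3.trans ?_
    rw [← ENNReal.ofReal_div_of_pos (Real.exp_pos _)]
    apply ENNReal.ofReal_le_ofReal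
    rw [Real.exp_neg] at hexp
    rw [div_eq_mul_inv]
    linarith
  have hsub : (Fk u (ball z₀ ρ) m ∪ Fk u (ball z₀ ρ) (m + 1)) ∩ ball c R ⊆
      ((Ak u (ball z₀ ρ) (fun z => ENNReal.ofReal (a z ^ q)) (ENNReal.ofReal (((m : ℝ) / 4) ^ q)) m ∪
      Ak u (ball z₀ ρ) (fun z => ENNReal.ofReal (a z ^ q))
        (ENNReal.ofReal ((((m + 1 : ℕ) : ℝ) / 4) ^ q)) (m + 1)) ∪
      ({w : ℂ | w ∈ ball c R ∧ w ∈ U ∧ (((m - 1) / 2 : ℕ) : ℝ) ≤ b w} ∪ H)) ∪ N := by
    rintro z ⟨hz, hzc⟩
    by_cases hzN : z ∈ N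
    · exact Or.inr hzN
    left
    have hzD : z ∈ ball z₀ ρ := by
      rcases hz with h | h
      · exact Fk_sub _ _ _ h
      · exact Fk_sub _ _ _ h
    have hzU : z ∈ U := hB2 (ball_subset_closedBall hzD)
    obtain ⟨h1, h2, h3⟩ := hNdef z hzU hzN
    have hm2 : (2 : ℝ) ≤ m := by exact_mod_cast hm
    have hkb : (((m - 1) / 2 : ℕ) : ℝ) ≤ ((m : ℝ) - 1) / 2 := by
      refine (Nat.cast_div_le).trans ?_
      rw [Nat.cast_sub (by omega)]
      simp
    rcases hz with hz | hz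
    · have hz1 := (mem_Fk.1 hz).2.1
      rcases alt (norm_nonneg (g z)) h1 h3 hz1 with h4 | h4 | h4
      · refine Or.inl (Or.inl ⟨?_, hz⟩)
        apply ENNReal.ofReal_le_ofReal
        exact Real.rpow_le_rpow (by positivity) (by linarith) hq.le
      · exact Or.inr (Or.inl ⟨hzc, hzU, hkb.trans h4⟩)
      · exact Or.inr (Or.inr ⟨ENNReal.ofReal_le_ofReal h4, hzD⟩)
    · have hz1 := (mem_Fk.1 hz).2.1
      rcases alt (norm_nonneg (g z)) h1 h3 hz1 with h4 | h4 | h4
      · refine Or.inl (Or.inr ⟨?_, hz⟩)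
        apply ENNReal.ofReal_le_ofReal
        refine Real.rpow_le_rpow (by positivity) ?_ hq.le
        push_cast at h4 ⊢
        linarith
      · refine Or.inr (Or.inl ⟨hzc, hzU, hkb.trans ?_⟩)
        push_cast at h4
        linarith
      · refine Or.inr (Or.inr ⟨ENNReal.ofReal_le_ofReal (le_trans ?_ h4), hzD⟩)
        apply Real.exp_le_exp.2
        apply Real.exp_le_exp.2
        push_cast
        linarith
  refine (measure_mono hsub).trans ?_
  refine (measure_union_le _ _).trans ?_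
  rw [hN, add_zero]
  refine (measure_union_le _ _).trans ?_
  refine add_le_add (measure_union_le _ _) ?_
  refine (measure_union_le _ _).trans ?_
  refine (add_le_add hthin hHvol).trans ?_
  rw [← ENNReal.ofReal_add (by positivity) (by positivity)]
  apply ENNReal.ofReal_le_ofReal
  linarith

/-- **Domar's theorem** for weights with thin level sets -/
theorem domar2 (h : P_mean) : P_domar2 := by
  intro M a b U q hq hU hMm hae haint hthin I ρ hI hρ
  obtain ⟨r, hr0, hrs, hrt⟩ := hthin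
  have hq0 : 0 < q := by linarith
  set f : ℂ → ℝ≥0∞ := fun z => ENNReal.ofReal (a z ^ q) with hf
  have hfm : AEMeasurable f (volume.restrict U) := haint.1.aemeasurable.ennreal_ofReal
  have hJ : ∫⁻ z in U, f z ≠ ⊤ := haint.lintegral_lt_top.ne
  set J : ℝ := (∫⁻ z in U, f z).toReal with hJdef
  have hJ0 : 0 ≤ J := ENNReal.toReal_nonneg
  set a₀ : ℝ := ρ / (8 * (J + 1)) with ha
  have ha0 : 0 < a₀ := by positivity
  have haI : a₀ * (2 * J) ≤ ρ / 4 := by
    have h1 : a₀ * (8 * (J + 1)) = ρ := by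
      rw [ha]
      field_simp
    nlinarith
  let Q : ℕ → ℝ := fun k => ((k : ℝ) / 4) ^ q
  -- the tail of the series
  let T : ℕ → ℝ := fun k => (1 / a₀ * 4 ^ q) * (1 / (k : ℝ) ^ q) + r ((k - 1) / 2) +
    2 * Real.sqrt I * Real.exp (-(Real.exp k / 2))
  have hT0 : ∀ k, 0 ≤ T k := by
    intro k
    have h1 := hr0 ((k - 1) / 2)
    show 0 ≤ (1 / a₀ * 4 ^ q) * (1 / (k : ℝ) ^ q) + r ((k - 1) / 2) +
      2 * Real.sqrt I * Real.exp (-(Real.exp k / 2))
    positivity
  have hTs : Summable T :=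
    (((Real.summable_one_div_nat_rpow.2 hq).mul_left _).add (summable_half hrs)).add
      (summable_ee.mul_left _)
  obtain ⟨n, hn1, hn⟩ : ∃ n : ℕ, 2 ≤ n ∧ ∀ m, n ≤ m → ∑ k ∈ Finset.Ico n m, T k ≤ ρ / 4 := by
    have ht := hTs.hasSum.tendsto_sum_nat
    have h1 : ∀ᶠ n : ℕ in Filter.atTop, (∑' k : ℕ, T k) - ρ / 4 < ∑ k ∈ Finset.range n, T k :=
      ht.eventually_const_lt (by linarith)
    obtain ⟨n, hn, hn1⟩ := (h1.and (Filter.eventually_ge_atTop 2)).exists
    refine ⟨n, hn1, fun m hm => ?_⟩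
    have h2 := hTs.sum_le_tsum (Finset.range m) (fun k _ => hT0 k)
    rw [← Finset.sum_range_add_sum_Ico _ hm] at h2
    linarith
  refine ⟨Real.exp (Real.exp (n + 1)), ?_⟩
  intro g W z₀ hW hB1 hB2 hg hint
  by_contra hcon
  push Not at hcon
  set u : ℂ → ℝ := fun z => Real.posLog ‖g z‖ with hu
  have hucont : ContinuousOn u W := Real.continuous_posLog.comp_continuousOn hg.continuousOn.norm
  have huB : ContinuousOn u (closedBall z₀ ρ) := hucont.mono hB1
  have hz0 : Real.exp (n + 1) ≤ u z₀ := by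
    have h1 := Real.log_le_log (Real.exp_pos _) hcon.le
    rw [Real.log_exp] at h1
    exact h1.trans (le_max_right _ _)
  set A : ℕ → Set ℂ := fun k => Ak u (ball z₀ ρ) f (ENNReal.ofReal (Q k)) k with hA
  have hAfin : ∀ k, volume (A k) ≠ ⊤ := fun k => Ak_fin u z₀ ρ f _ k
  set α : ℕ → ℝ := fun k => volume.real (A k) with hα
  have hα0 : ∀ k, 0 ≤ α k := fun k => measureReal_nonneg
  have hQ0 : ∀ k, 0 ≤ Q k := fun k => Real.rpow_nonneg (by positivity) _
  have hαs : ∀ s : Finset ℕ, ∑ k ∈ s, Q k * α k ≤ J := by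
    intro s
    have h1 := layers_sum2 (fun k => ENNReal.ofReal (Q k)) (ball_subset_closedBall.trans hB2) hfm
      (huB.mono ball_subset_closedBall) s
    have h2 := ENNReal.toReal_mono hJ h1
    rw [ENNReal.toReal_sum (fun k _ => ENNReal.mul_ne_top ENNReal.ofReal_ne_top (hAfin k))] at h2
    refine le_trans (le_of_eq ?_) h2
    refine Finset.sum_congr rfl fun k _ => ?_
    rw [ENNReal.toReal_mul, ENNReal.toReal_ofReal (hQ0 k)]
    rfl
  let R : ℕ → ℝ := fun k => a₀ * (Q k * (α k + α (k + 1))) + 1 / (a₀ * Q k) + r ((k - 1) / 2) +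
    2 * Real.sqrt I * Real.exp (-(Real.exp k / 2))
  have hkq : ∀ k : ℕ, n ≤ k → 0 < Q k := fun k hk =>
    Real.rpow_pos_of_pos (by
      have : (0 : ℝ) < k := by exact_mod_cast (by omega : 0 < k)
      positivity) _
  have hR0 : ∀ k, n ≤ k → 0 < R k := by
    intro k hk
    have h1 := hkq k hk
    have h2 := hα0 k
    have h3 := hα0 (k + 1)
    have h4 := hr0 ((k - 1) / 2)
    show 0 < a₀ * (Q k * (α k + α (k + 1))) + 1 / (a₀ * Q k) + r ((k - 1) / 2) +
      2 * Real.sqrt I * Real.exp (-(Real.exp k / 2))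
    positivity
  have hRr : ∀ k, n ≤ k → r ((k - 1) / 2) ≤ R k := by
    intro k hk
    have h1 := hkq k hk
    have h2 := hα0 k
    have h3 := hα0 (k + 1)
    have h4 : 0 ≤ a₀ * (Q k * (α k + α (k + 1))) + 1 / (a₀ * Q k) := by positivity
    have h5 : 0 ≤ 2 * Real.sqrt I * Real.exp (-(Real.exp k / 2)) := by positivity
    show r ((k - 1) / 2) ≤ a₀ * (Q k * (α k + α (k + 1))) + 1 / (a₀ * Q k) + r ((k - 1) / 2) +
      2 * Real.sqrt I * Real.exp (-(Real.exp k / 2))
    linarith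
  have hRI : ∀ k, n ≤ k → 4 * (I * Real.exp (-Real.exp k)) ≤ R k ^ 2 := by
    intro k hk
    have h1 := hkq k hk
    have h2 := hα0 k
    have h3 := hα0 (k + 1)
    have h6 := hr0 ((k - 1) / 2)
    have h4 : 0 ≤ a₀ * (Q k * (α k + α (k + 1))) + 1 / (a₀ * Q k) := by positivity
    have h5 : 0 ≤ 2 * Real.sqrt I * Real.exp (-(Real.exp k / 2)) := by positivity
    have h7 : 2 * Real.sqrt I * Real.exp (-(Real.exp k / 2)) ≤ R k := by
      show _ ≤ a₀ * (Q k * (α k + α (k + 1))) + 1 / (a₀ * Q k) + r ((k - 1) / 2) +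
        2 * Real.sqrt I * Real.exp (-(Real.exp k / 2))
      linarith
    have h8 := pow_le_pow_left₀ h5 h7 2
    have h9 : (2 * Real.sqrt I * Real.exp (-(Real.exp k / 2))) ^ 2 =
        4 * (I * Real.exp (-Real.exp k)) := by
      have e1 : Real.exp (-(Real.exp k / 2)) ^ 2 = Real.exp (-Real.exp k) := by
        rw [← Real.exp_nat_mul]
        congr 1
        push_cast
        ring
      rw [mul_pow, mul_pow, e1, Real.sq_sqrt hI]
      ring
    rw [h9] at h8
    exact h8
  have hR2 : ∀ k, n ≤ k → 4 * (α k + α (k + 1)) ≤ R k ^ 2 := by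
    intro k hk
    have h1 := hkq k hk
    have h2 := hα0 k
    have h3 := hα0 (k + 1)
    have h6 := hr0 ((k - 1) / 2)
    have h5 : 0 ≤ 2 * Real.sqrt I * Real.exp (-(Real.exp k / 2)) := by positivity
    obtain ⟨A', hA'⟩ : ∃ A', A' = a₀ * (Q k * (α k + α (k + 1))) := ⟨_, rfl⟩
    obtain ⟨B', hB'⟩ : ∃ B', B' = 1 / (a₀ * Q k) := ⟨_, rfl⟩
    have hA0 : 0 ≤ A' := by rw [hA']; positivity
    have hB0 : 0 ≤ B' := by rw [hB']; positivity
    have h4 : 4 * (A' * B') = 4 * (α k + α (k + 1)) := by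
      rw [hA', hB']
      field_simp
    have h7 : A' + B' ≤ R k := by
      rw [hA', hB']
      show _ ≤ a₀ * (Q k * (α k + α (k + 1))) + 1 / (a₀ * Q k) + r ((k - 1) / 2) +
        2 * Real.sqrt I * Real.exp (-(Real.exp k / 2))
      linarith
    have h8 := pow_le_pow_left₀ (by positivity) h7 2
    rw [← h4]
    nlinarith [sq_nonneg (A' - B')]
  have hRsum : ∀ m, n ≤ m → ∑ k ∈ Finset.Ico n m, R k < ρ := by
    intro m hm
    have e1 : ∑ k ∈ Finset.Ico n m, R k = a₀ * ∑ k ∈ Finset.Ico n m, Q k * α k +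
        a₀ * ∑ k ∈ Finset.Ico n m, Q k * α (k + 1) + ∑ k ∈ Finset.Ico n m, T k := by
      rw [Finset.mul_sum, Finset.mul_sum, ← Finset.sum_add_distrib,
        ← Finset.sum_add_distrib]
      refine Finset.sum_congr rfl fun k hk => ?_
      have hk1 := hkq k (Finset.mem_Ico.1 hk).1
      have hk2 : (0 : ℝ) < k := by
        have := (Finset.mem_Ico.1 hk).1
        exact_mod_cast (by omega : 0 < k)
      show a₀ * (Q k * (α k + α (k + 1))) + 1 / (a₀ * Q k) + r ((k - 1) / 2) +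
        2 * Real.sqrt I * Real.exp (-(Real.exp k / 2)) = a₀ * (Q k * α k) + a₀ * (Q k * α (k + 1)) +
        ((1 / a₀ * 4 ^ q) * (1 / (k : ℝ) ^ q) + r ((k - 1) / 2) +
        2 * Real.sqrt I * Real.exp (-(Real.exp k / 2)))
      have e2 : 1 / (a₀ * Q k) = (1 / a₀ * 4 ^ q) * (1 / (k : ℝ) ^ q) := by
        show 1 / (a₀ * ((k : ℝ) / 4) ^ q) = _
        rw [Real.div_rpow hk2.le (by norm_num)]
        have h4 : (0 : ℝ) < 4 ^ q := by positivity
        have h5 : (0 : ℝ) < (k : ℝ) ^ q := by positivity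
        field_simp
      rw [e2]
      ring
    have h1 := hαs (Finset.Ico n m)
    have h2 : ∑ k ∈ Finset.Ico n m, Q k * α (k + 1) ≤ J := by
      refine le_trans ?_ (hαs (Finset.Ico (n + 1) (m + 1)))
      rw [← Finset.sum_Ico_add' (fun k : ℕ => Q k * α k) n m 1]
      apply Finset.sum_le_sum
      intro k _
      apply mul_le_mul_of_nonneg_right _ (hα0 _)
      show ((k : ℝ) / 4) ^ q ≤ (((k + 1 : ℕ) : ℝ) / 4) ^ q
      apply Real.rpow_le_rpow (by positivity) _ hq0.le
      push_cast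
      linarith
    have h3 := hn m hm
    have h6 := mul_le_mul_of_nonneg_left h1 ha0.le
    have h7 := mul_le_mul_of_nonneg_left h2 ha0.le
    rw [e1]
    linarith
  have hchain : ∀ m, n ≤ m → ∃ z, dist z z₀ ≤ ∑ k ∈ Finset.Ico n m, R k ∧
      Real.exp (m + 1) ≤ u z := by
    intro m hm
    induction m, hm using Nat.le_induction with
    | base => exact ⟨z₀, by simp, hz0⟩
    | succ m hm ih =>
      obtain ⟨z, hz1, hz2⟩ := ih
      have hlt := hRsum (m + 1) (hm.trans (Nat.le_succ m))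
      rw [Finset.sum_Ico_succ_top hm] at hlt ⊢
      have hsub : closedBall z (R m) ⊆ ball z₀ ρ := by
        intro w hw
        rw [mem_closedBall] at hw
        rw [mem_ball]
        have := dist_triangle w z z₀
        linarith
      have harea := area (q := q) (c := z) (R := R m) (m := m) hq0 hI hU hMm hae hB1 hB2 hg hint
        (hR0 m hm) (by omega) (hrt ((m - 1) / 2) z (R m) (hRr m hm) (hR0 m hm)) (hRI m hm)
      have hsmall : volume ((Fk u (ball z₀ ρ) m ∪ Fk u (ball z₀ ρ) (m + 1)) ∩ ball z (R m)) ≤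
          ENNReal.ofReal (5 / 8 * R m ^ 2) := by
        refine harea.trans ?_
        have e1 : volume (A m) = ENNReal.ofReal (α m) := (ENNReal.ofReal_toReal (hAfin m)).symm
        have e2 : volume (A (m + 1)) = ENNReal.ofReal (α (m + 1)) :=
          (ENNReal.ofReal_toReal (hAfin (m + 1))).symm
        show volume (A m) + volume (A (m + 1)) + ENNReal.ofReal (3 / 8 * R m ^ 2) ≤ _
        rw [e1, e2, ← ENNReal.ofReal_add (hα0 m) (hα0 (m + 1)),
          ← ENNReal.ofReal_add (add_nonneg (hα0 m) (hα0 (m + 1))) (by positivity)]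
        apply ENNReal.ofReal_le_ofReal
        have := hR2 m hm
        linarith
      obtain ⟨w, hw1, hw2⟩ := step2 h hW hg hB1 (hR0 m hm) hsub hz2 hsmall
      rw [mem_ball] at hw1
      refine ⟨w, ?_, ?_⟩
      · have := dist_triangle w z z₀
        linarith
      · have e : (((m + 1 : ℕ) : ℝ) + 1) = (m : ℝ) + 2 := by
          push_cast
          ring
        rw [e]
        exact hw2
  obtain ⟨M', hM'⟩ := (isCompact_closedBall z₀ ρ).exists_bound_of_continuousOn huB
  obtain ⟨m, hm⟩ := exists_nat_gt (max M' n)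
  have hmM : M' < m := (le_max_left _ _).trans_lt hm
  have hmn : n ≤ m := by
    have h1 : (n : ℝ) < m := (le_max_right _ _).trans_lt hm
    exact_mod_cast h1.le
  obtain ⟨z, hz1, hz2⟩ := hchain m hmn
  have hzB : z ∈ closedBall z₀ ρ := by
    rw [mem_closedBall]
    exact hz1.trans (hRsum m hmn).le
  have h1 := hM' z hzB
  rw [Real.norm_eq_abs] at h1
  have h2 := (le_abs_self _).trans h1
  have h3 := Real.add_one_le_exp ((m : ℝ) + 1)
  linarith

theorem p_domar2 : P_domar2 := domar2 Pool.Agent.H253.LL.p_mean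

end Pool.Agent.H177.EP
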